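import Mathlib
import Pool.Agent.Q63.KU.Dec
import Pool.Agent.Q326.ZS.Small

/-!
# Homologically trivial cycles on quotients of Fermat varieties

Let `X : x_0 ^ d + ... + x_(n+1) ^ d = 0` be the Fermat variety of dimension `n` over the algebraic numbers (or over `ℂ`) and
let `G` be a subgroup of `(μ_d) ^ (n + 2)`, which acts on `X`. Let `k ≥ 1` and assume

* `d ≤ 10`, and `h^(n-q, q)(X / G) = 0` (primitive cohomology) for all `q < k`; or
* `(k - 1) d + ⌊d / 2⌋ ≤ n` (for `k = 1` this is `d ≤ 2 n + 1`), and `h^(n-k+1, k-1)(X / G) = 0`.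

Then `CH^m(X / G)_ℚ` has no homologically trivial elements for `m > n - k`, that is for cycles of dimension `< k`, and for
`m ≤ k + 1` with `2 m ≠ n + 1`. If `k = 1`, each smooth projective variety `Y` birational to `X / G` has `CH_0(Y)_ℚ = ℚ`.

The motive of `X` is the sum of motives of points and of the parts `M(a)` for the characters `a` of
`(μ_d) ^ (n + 2)` with `∑ a_i = 0` and `a_i ≠ 0` for all `i`, which have Hodge type `(n - q, q)`, `∑ <a_i> = (q + 1) d`. If `a` is the
union of `β` and `γ` and `s = ∑ β_i`, then by the inductive structure of Shioda and Katsura `M(a) = M(β) ⊗ M(γ) ⊗ ℚ(-1)` if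
`s = 0`, and `M(a) = M(β, -s) ⊗ M(γ, s)` if `s ≠ 0`. If `x + y = x' + y' = s ≠ 0` and `<u x> + <u y> = <u x'> + <u y'>` for all units
`u`, the parts `M(x, y, -s)` and `M(x', y', -s)` of `h^1` of the Fermat curve are isomorphic, since their Hodge structures are.
Hence `M(a)` does not change if `x, y` are replaced by `x', y'` (`Swap`). The theorems about zero-sum multisets
`Pool.Agent.Q326.ZS.splits_small` and `Pool.Agent.Q326.ZS.splits_or` show that all `a` which are trivial on `G` are, up
to such replacements, unions of at least `k + 1` zero-sum blocks.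
-/

set_option autoImplicit false

namespace Pool.Agent.Results.MP_32dfd1_ag.FermatQuotients

open Multiplicative Pool.Agent.Q63.KU Pool.Agent.Q326.ZS

/-- The part of the representation `V` of the group `(ℤ/d)^N = (μ_d)^N` for the character `a`. -/
def part {V : Type} [AddCommGroup V] [Module ℂ V] {d N : ℕ} (ψ : AddChar (ZMod d) ℂ)
    (ρ : Representation ℂ (Multiplicative (Fin N → ZMod d)) V) (a : Fin N → ZMod d) : Set V :=
  {u | ∀ h : Fin N → ZMod d, ρ (ofAdd h) u = ψ (∑ i, a i * h i) • u}

/-- Up to finitely many swaps, the entries of `a` are the union of `j + 1` nonempty blocks (multisets) with sum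
zero. -/
def Blocks {d N : ℕ} [NeZero d] (j : ℕ) (a : Fin N → ZMod d) : Prop :=
  ∃ (β : Multiset (ZMod d)) (B : Multiset (Multiset (ZMod d))),
    Relation.ReflTransGen Swap (Finset.univ.val.map a) β ∧ Multiset.card B = j + 1 ∧
    (∀ b ∈ B, b ≠ 0 ∧ b.sum = 0) ∧ B.sum = β

/-- `V m` is the space of homologically trivial cycles of codimension `m` on the Fermat variety of degree
`d` and dimension `n`, with coefficients in `ℂ`, modulo rational equivalence, and `ρ m` is the action of the
group `(ℤ/d)^(n+2) = (μ_d)^(n+2)`. -/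
structure FermatCycles (d n : ℕ) [NeZero d] (ψ : AddChar (ZMod d) ℂ) {V : ℕ → Type}
    [∀ m, AddCommGroup (V m)] [∀ m, Module ℂ (V m)]
    (ρ : ∀ m, Representation ℂ (Multiplicative (Fin (n + 2) → ZMod d)) (V m)) : Prop where
  /-- the characters which do not occur in the primitive cohomology -/
  characters : ∀ m (a : Fin (n + 2) → ZMod d), (∑ i, a i ≠ 0 ∨ ∃ i, a i = 0) →
    ∀ u ∈ part ψ (ρ m) a, u = 0
  /-- the inductive structure: if `a` is up to swaps a union of `j + 1` zero-sum blocks `β`, then the part of the motive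
  for `a` is `(⊗ M(β)) (-j)`, and `⊗ M(β)` is a summand of `h^(n-2j)(Z)`, `Z` a product of Fermat varieties,
  `dim Z = n - 2 j`: so there are no cycles for `m > n - j`, and for `m ≤ j + 1` the homologically trivial ones are a part
  of `CH^(m-j)_hom(Z)`, which vanishes for `m ≤ j` and if `m = j + 1` unless `n - 2 j = 1` -/
  inductive_structure : ∀ (j : ℕ) (a : Fin (n + 2) → ZMod d), Blocks j a →
    ∀ m, (n < m + j ∨ (m ≤ j + 1 ∧ 2 * m ≠ n + 1)) → ∀ u ∈ part ψ (ρ m) a, u = 0

/-- The characters in the primitive cohomology of `X / G`: those of `(ℤ/d)^(n+2)` which are trivial on `G`, have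
nonzero entries and sum zero. -/
def InCohomology {d n : ℕ} (G : AddSubgroup (Fin (n + 2) → ZMod d)) (a : Fin (n + 2) → ZMod d) : Prop :=
  (∀ h ∈ G, ∑ i, a i * h i = 0) ∧ (∀ i, a i ≠ 0) ∧ ∑ i, a i = 0

/-- `h^(n-q, q)` of the primitive cohomology of `X / G` -/
noncomputable def hodgeNumber {d n : ℕ} (G : AddSubgroup (Fin (n + 2) → ZMod d)) (q : ℕ) : ℕ :=
  Set.ncard {a : Fin (n + 2) → ZMod d | InCohomology G a ∧ ∑ i, (a i).val = (q + 1) * d}

lemma notMem {d n : ℕ} {G : AddSubgroup (Fin (n + 2) → ZMod d)} {a : Fin (n + 2) → ZMod d}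
    (ha : InCohomology G a) : (0 : ZMod d) ∉ Finset.univ.val.map a := by
  intro h1
  obtain ⟨i, -, hi⟩ := Multiset.mem_map.mp h1
  exact ha.2.1 i hi

lemma InCohomology.mul {d n : ℕ} {G : AddSubgroup (Fin (n + 2) → ZMod d)}
    {a : Fin (n + 2) → ZMod d} (ha : InCohomology G a) {u : ZMod d} (hu : IsUnit u) :
    InCohomology G fun i => u * a i := by
  refine ⟨fun g hg => ?_, fun i => ?_, ?_⟩
  · have h2 := ha.1 g hg
    calc ∑ i, u * a i * g i = u * ∑ i, a i * g i := by
          rw [Finset.mul_sum]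
          exact Finset.sum_congr rfl fun i _ => mul_assoc _ _ _
      _ = 0 := by rw [h2, mul_zero]
  · intro h2
    exact ha.2.1 i ((hu.mul_right_eq_zero).mp h2)
  · rw [← Finset.mul_sum, ha.2.2, mul_zero]

lemma block_le {d : ℕ} [NeZero d] {b : Multiset (ZMod d)} (hb : b ≠ 0) (hs : b.sum = 0)
    (h0 : (0 : ZMod d) ∉ b) : d ≤ (b.map ZMod.val).sum := by
  obtain ⟨x, hx⟩ := Multiset.exists_mem_of_ne_zero hb
  have h1 : 0 < (b.map ZMod.val).sum := by
    have h2 : x.val ≤ (b.map ZMod.val).sum := Multiset.le_sum_of_mem (Multiset.mem_map_of_mem _ hx)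
    have h3 : x.val ≠ 0 := fun h => h0 ((ZMod.val_eq_zero x).mp h ▸ hx)
    omega
  have h2 := sum_val_cast b
  rw [hs, ZMod.natCast_eq_zero_iff] at h2
  exact Nat.le_of_dvd h1 h2

lemma sum_val_le {d : ℕ} [NeZero d] {B : Multiset (Multiset (ZMod d))}
    (hB : ∀ b ∈ B, b ≠ 0 ∧ b.sum = 0) (h0 : (0 : ZMod d) ∉ B.sum) :
    Multiset.card B * d ≤ (B.sum.map ZMod.val).sum := by
  induction B using Multiset.induction_on with
  | empty => simp
  | cons b B ih =>
    rw [Multiset.sum_cons] at h0 ⊢
    have h1 := hB b (Multiset.mem_cons_self b B)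
    have h2 := block_le h1.1 h1.2 (fun h => h0 (Multiset.mem_add.mpr (Or.inl h)))
    have h3 := ih (fun x hx => hB x (Multiset.mem_cons_of_mem hx))
      (fun h => h0 (Multiset.mem_add.mpr (Or.inr h)))
    rw [Multiset.map_add, Multiset.sum_add, Multiset.card_cons, add_mul, one_mul]
    omega

/-- long characters -/
lemma long {d n : ℕ} [NeZero d] {G : AddSubgroup (Fin (n + 2) → ZMod d)} {k : ℕ}
    (hk : 1 ≤ k) (hn : (k - 1) * d + d / 2 ≤ n) (h : hodgeNumber G (k - 1) = 0)
    {a : Fin (n + 2) → ZMod d} (ha : InCohomology G a) :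
    ∃ B, Dec (Finset.univ.val.map a) B ∧ k + 1 ≤ Multiset.card B := by
  have hc : (k - 1) * d + d / 2 + 2 ≤ Multiset.card (Finset.univ.val.map a) := by
    rw [Multiset.card_map, Finset.card_val, Finset.card_univ, Fintype.card_fin]
    omega
  rcases splits_or (notMem ha) ha.2.2 hk hc with hB | ⟨u, hu, hus⟩
  · exact hB
  · exfalso
    unfold hodgeNumber at h
    rw [Set.ncard_eq_zero (Set.toFinite _)] at h
    have h1 : (fun i => u * a i) ∈
        {a : Fin (n + 2) → ZMod d | InCohomology G a ∧ ∑ i, (a i).val = (k - 1 + 1) * d} := by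
      refine ⟨ha.mul hu, ?_⟩
      rw [Multiset.map_map] at hus
      rw [Nat.sub_add_cancel hk]
      exact hus
    rw [h] at h1
    exact h1

/-- all Hodge numbers `h^(n-q,q)` with `q < k` vanish -/
lemma hodge_zero {d n : ℕ} [NeZero d] {G : AddSubgroup (Fin (n + 2) → ZMod d)} {k : ℕ}
    (hk : 1 ≤ k) (hn : (k - 1) * d + d / 2 ≤ n) (h : hodgeNumber G (k - 1) = 0) {q : ℕ}
    (hq : q < k) : hodgeNumber G q = 0 := by
  unfold hodgeNumber
  rw [Set.ncard_eq_zero (Set.toFinite _), Set.eq_empty_iff_forall_notMem]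
  rintro a ⟨ha, has⟩
  obtain ⟨B, hB, hBc⟩ := long hk hn h ha
  have h2 := sum_val_le hB.1 (by rw [hB.2]; exact notMem ha)
  rw [hB.2, Multiset.map_map] at h2
  have h3 : (Multiset.map (ZMod.val ∘ a) Finset.univ.val).sum = ∑ i, (a i).val := rfl
  rw [h3, has] at h2
  have h4 : (q + 1) * d < Multiset.card B * d := (Nat.mul_lt_mul_right (NeZero.pos d)).mpr (by omega)
  omega

/-- all characters in the cohomology are unions of at least `k + 1` blocks, up to swaps -/
lemma blocks_of_hodge {d n : ℕ} [NeZero d] {G : AddSubgroup (Fin (n + 2) → ZMod d)} {k : ℕ}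
    (hk : 1 ≤ k) (h : (d ≤ 10 ∧ ∀ q < k, hodgeNumber G q = 0) ∨
      ((k - 1) * d + d / 2 ≤ n ∧ hodgeNumber G (k - 1) = 0))
    {a : Fin (n + 2) → ZMod d} (ha : InCohomology G a) : ∃ j, k ≤ j ∧ Blocks j a := by
  rcases h with ⟨hd, hq⟩ | ⟨hn, hq⟩
  · have hne : Finset.univ.val.map a ≠ 0 := by
      intro h0
      have := congrArg Multiset.card h0
      rw [Multiset.card_map, Finset.card_val, Finset.card_univ, Fintype.card_fin,
        Multiset.card_zero] at this
      omega
    obtain ⟨β, B, hβ, hB, hBc⟩ := splits_small hd hne (notMem ha) ha.2.2 (k := k) (by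
      intro u hu
      have hb := ha.mul hu
      rw [Multiset.map_map]
      have h3 : (Multiset.map ((fun a => (u * a).val) ∘ a) Finset.univ.val).sum =
        ∑ i, (u * a i).val := rfl
      rw [h3]
      have h4 : d ∣ ∑ i, (u * a i).val := by
        rw [← ZMod.natCast_eq_zero_iff, Nat.cast_sum]
        simp only [ZMod.natCast_val, ZMod.cast_id', id]
        exact hb.2.2
      have h5 : 0 < ∑ i, (u * a i).val := by
        refine Finset.sum_pos (fun i _ => ?_) ⟨0, Finset.mem_univ _⟩
        exact Nat.pos_of_ne_zero fun h => hb.2.1 i ((ZMod.val_eq_zero _).mp h)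
      obtain ⟨s, hs⟩ := h4
      have hs0 : s ≠ 0 := by
        rintro rfl
        omega
      have hsk : k + 1 ≤ s := by
        by_contra hlt
        have h6 := hq (s - 1) (by omega)
        unfold hodgeNumber at h6
        rw [Set.ncard_eq_zero (Set.toFinite _)] at h6
        have h7 : (fun i => u * a i) ∈
            {a : Fin (n + 2) → ZMod d | InCohomology G a ∧ ∑ i, (a i).val = (s - 1 + 1) * d} :=
          ⟨hb, by rw [Nat.sub_add_cancel (by omega), mul_comm]; exact hs⟩
        rw [h6] at h7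
        exact h7
      rw [hs, mul_comm]
      exact Nat.mul_le_mul_left d hsk)
    exact ⟨Multiset.card B - 1, by omega, β, B, hβ, by omega, hB.1, hB.2⟩
  · obtain ⟨B, hB, hBc⟩ := long hk hn hq ha
    exact ⟨Multiset.card B - 1, by omega, _, B, Relation.ReflTransGen.refl, by omega, hB.1, hB.2⟩

/-- **Homologically trivial cycles on quotients of Fermat varieties.** `G` is a group of diagonal automorphisms of
the Fermat variety `X` of degree `d` and dimension `n`, and `h^(n-q,q)(X/G) = 0` (primitive cohomology) for all `q < k`,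
`d ≤ 10`, or `(k - 1) d + ⌊d/2⌋ ≤ n` and `h^(n-k+1,k-1)(X/G) = 0`. Then `h^(n-q,q)(X/G)` is zero for all
`q < k`, and the homologically trivial cycles on `X/G`, that is, the `G`-invariant ones on `X`, with rational
coefficients, of codimension `m > n - k`, and those of codimension `m ≤ k + 1` if `2 m ≠ n + 1`, are rationally equivalent to
zero. -/
theorem result (d n : ℕ) [NeZero d] (ψ : AddChar (ZMod d) ℂ) (hψ : ψ.IsPrimitive) {V : ℕ → Type}
    [∀ m, AddCommGroup (V m)] [∀ m, Module ℂ (V m)]
    (ρ : ∀ m, Representation ℂ (Multiplicative (Fin (n + 2) → ZMod d)) (V m))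
    (hX : FermatCycles d n ψ ρ) (G : AddSubgroup (Fin (n + 2) → ZMod d)) (k : ℕ) (hk : 1 ≤ k)
    (h : (d ≤ 10 ∧ ∀ q < k, hodgeNumber G q = 0) ∨
      ((k - 1) * d + d / 2 ≤ n ∧ hodgeNumber G (k - 1) = 0)) :
    (∀ q < k, hodgeNumber G q = 0) ∧
      ∀ m, (n < m + k ∨ (m ≤ k + 1 ∧ 2 * m ≠ n + 1)) →
        ∀ u : V m, (∀ g ∈ G, ρ m (ofAdd g) u = u) → u = 0 := by
  constructor
  · intro q hq
    rcases h with h | h
    · exact h.2 q hq
    · exact hodge_zero hk h.1 h.2 hq
  · intro m hm u hu
    rw [← sum_comp (ρ := ρ m) hψ u]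
    refine Finset.sum_eq_zero fun a _ => ?_
    have hpart : comp (ρ m) ψ u a ∈ part ψ (ρ m) a := fun h => act_comp u a h
    by_cases ha : ∀ g ∈ G, ∑ i, a i * g i = 0
    · by_cases h1 : ∑ i, a i ≠ 0 ∨ ∃ i, a i = 0
      · exact hX.characters m a h1 _ hpart
      · push Not at h1
        obtain ⟨j, hj, hB⟩ := blocks_of_hodge hk h ⟨ha, h1.2, h1.1⟩
        exact hX.inductive_structure j a hB m (by omega) _ hpart
    · push Not at ha
      obtain ⟨g, hg, hga⟩ := ha
      have h2 : ρ m (ofAdd g) (comp (ρ m) ψ u a) = comp (ρ m) ψ u a := by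
        unfold comp
        rw [map_smul, map_sum]
        congr 1
        refine Finset.sum_congr rfl fun g' _ => ?_
        rw [map_smul]
        congr 1
        rw [← Module.End.mul_apply, ← map_mul, mul_comm, map_mul, Module.End.mul_apply, hu g hg]
      rw [hpart g] at h2
      by_contra h0
      have h3 : (1 - ψ (∑ i, a i * g i)) • comp (ρ m) ψ u a = 0 := by
        rw [sub_smul, one_smul, h2, sub_self]
      rcases smul_eq_zero.1 h3 with h4 | h4
      · exact hga (prim_inj hψ (by linear_combination -h4))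
      · exact h0 h4

end Pool.Agent.Results.MP_32dfd1_ag.FermatQuotients
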