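import Pool.Agent.Q72.DP.Low

/-!
# Homologically trivial cycles of low dimension

`𝒱` is the class of smooth projective varieties over `k = ℚ̄` (or any class of smooth proper
varieties over a field `k` closed under products), `C` the Chow groups with rational coefficients (in
the form of their formal properties, `IsChowProj`), `H` a Weil cohomology theory (`IsWeilProj`; for
the problem: Betti cohomology of the complex varieties `X_ℂ`), `B` the Grothendieck rings of vector
bundles (with their known properties, `IsKTheory`) and `Rat` the class of rational varieties. The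
known properties of rational varieties, and of the odd cohomology under projective bundles and
blow-ups, are the hypothesis `IsConiveau` for the classes `OddBelow H c` of the varieties with
`H^1 = H^3 = ⋯ = H^(2c-1) = 0`.

By Poincaré duality `H^(2i+1)(Y) = 0` means `H^(2m-1)(Y) = 0` for `m = dim Y - i`, so that for such a
variety the problem predicts that the homologically trivial cycles of dimension `i < c` vanish.

Theorem. (a) For every `c ≥ 1` the following are equivalent:
* for all varieties `Y` with `H^1 = H^3 = ⋯ = H^(2c-1) = 0` and all `i < c` the homologically trivial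
  cycles of dimension `i` on `Y` vanish;
* for all such `Y` and all divisors `G` on `Y`: if the class `G^(dim Y - c + 1)`, a class of cycles of
  dimension `c - 1`, is homologically trivial, then it is zero.
(b) These properties for `c` follow if for all rational `Y` with `H^1 = H^3 = ⋯ = H^(2c+1) = 0` and
all divisors `G` on `Y` with homologically trivial `G^(dim Y - c)` one has `G^(dim Y - c) = 0`.
-/

open CategoryTheory AlgebraicGeometry

set_option autoImplicit false

universe u v w

namespace Pool.Agent.Results.MP_32dfd1_ag.LowDimension

open Pool.Agent.H914 Pool.Agent.W492.BB Pool.Agent.TH133 Pool.Agent.Q72.DP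

/-- The vanishing of the homologically trivial cycles of dimension `< c` on the varieties with
`H^1 = H^3 = ⋯ = H^(2c-1) = 0` is tested on the powers `G^(dim Y - c + 1)` of divisors. -/
theorem result {k : Type u} [Field k] {𝒱 : VarClass k} (C : TheoryData.{u, v, 0} 𝒱 ℚ)
    [IsChowProj C] {K : Type w} [Field K] (H : WeilTheoryData.{u, v, w} C K) [IsWeilProj H]
    (B : BundleData C) (hB : B.IsKTheory) (Rat : 𝒱.Obj → Prop)
    (hQ : IsConiveau B Rat (OddBelow H)) (c : ℕ) (hc : 1 ≤ c) :
    [∀ Y : 𝒱.Obj, OddBelow H c Y → ∀ i < c, HomZeroDim H Y i,
      ∀ Y : 𝒱.Obj, OddBelow H c Y → TopPowerZero H Y (c - 1)].TFAE ∧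
    ((∀ Y : 𝒱.Obj, OddBelow H (c + 1) Y → Rat Y → TopPowerZero H Y c) →
      ∀ Y : 𝒱.Obj, OddBelow H c Y → ∀ i < c, HomZeroDim H Y i) :=
  coniveau_each hB hQ hc

end Pool.Agent.Results.MP_32dfd1_ag.LowDimension
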