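import Pool.Agent.Q72.DP.Odd

/-!
# Homologically trivial cycles on varieties without odd cohomology

`𝒱` is the class of smooth projective varieties over `k = ℚ̄` (or any class of smooth proper
varieties over a field `k` closed under products), `C` the Chow groups with rational coefficients (in
the form of their formal properties, `IsChowProj`), `H` a Weil cohomology theory (`IsWeilProj`; for
the problem: Betti cohomology of the complex varieties `X_ℂ`), and `B` the Grothendieck rings of
vector bundles (with their known properties, `IsKTheory`). `Rat` is the class of rational varieties;
the known properties of rational varieties and of odd cohomology under projective bundles and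
blow-ups are `IsOddFreeClass`.

For a variety without odd cohomology the problem predicts that `CH^m_hom(X) = 0` for all `m`.

Theorem. The following are equivalent:
* `CH^m_hom(X) = 0` for all varieties `X` without odd cohomology and all `m`;
* for all varieties `V` without odd cohomology and all divisors `G` on `V`: if `G^m` is homologically
  trivial then `G^m = 0` in `CH^m(V)`;
* the same for the rational varieties `V` without odd cohomology of dimension `2 m`.
-/

open CategoryTheory AlgebraicGeometry

set_option autoImplicit false

universe u v w

namespace Pool.Agent.Results.MP_32dfd1_ag.NoOddCohomology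

open Pool.Agent.H914 Pool.Agent.W492.BB Pool.Agent.TH133 Pool.Agent.Q72.DP

/-- The homologically trivial cycles on all varieties without odd cohomology vanish if and only if
the homologically trivial powers `G^m` of divisors on the rational varieties of dimension `2 m`
without odd cohomology do. -/
theorem result {k : Type u} [Field k] {𝒱 : VarClass k} (C : TheoryData.{u, v, 0} 𝒱 ℚ)
    [IsChowProj C] {K : Type w} [Field K] (H : WeilTheoryData.{u, v, w} C K) [IsWeilProj H]
    (B : BundleData C) (hB : B.IsKTheory) (Rat : 𝒱.Obj → Prop) (hRat : IsOddFreeClass H B Rat) :
    [∀ X : 𝒱.Obj, OddFree H X → ∀ m : ℕ, HomZero H X m,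
      ∀ V : 𝒱.Obj, OddFree H V → ∀ (G : C.A V) (m : ℕ), C.Deg 1 G → H.cl (G ^ m) = 0 → G ^ m = 0,
      ∀ V : 𝒱.Obj, OddFree H V → Rat V → ∀ (G : C.A V) (m : ℕ), V.dim = 2 * m → C.Deg 1 G →
        H.cl (G ^ m) = 0 → G ^ m = 0].TFAE :=
  homZero_odd hB hRat

end Pool.Agent.Results.MP_32dfd1_ag.NoOddCohomology
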