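import Pool.Agent.Q70.KM.GMain

/-!
# Zero-cycles on the product-quotient surfaces `(C × D) / G` without odd cohomology

Let `C` and `D` be smooth projective curves over an algebraically closed field `k` of characteristic
zero (for example the field of algebraic numbers) on which a finite group `G` operates, such that
`C / G` and `D / G` are projective lines (`LineQuotient`). Let `X = (C × D) / G` be the quotient by
the diagonal operation of `G` (`SurfG`). The surfaces of this kind are exactly the
product-quotient surfaces of irregularity zero: `H^1(X, ℚ) = H^3(X, ℚ) = 0`, and the same holds for a
resolution of the quotient singularities of `X`, which has the same zero-cycles modulo rational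
equivalence (with rational coefficients). The geometric genus of `X` is the dimension of the
space of invariants of `G` in `H^0(C, Ω) ⊗ H^0(D, Ω)`, and it is usually positive; then the
group of zero-cycles of degree zero on `X` is infinite-dimensional over the complex numbers by
Mumford's theorem. The conjecture says that it is zero over the algebraic numbers (up to torsion).
Examples are the surfaces `u^m = f(x) / g(z)`, and among the K3 surfaces the elliptic ones
`y^2 = x^3 + p(t)` and `y^2 = x^3 + p(t) x` and the quartics `f(x, y) = g(z, w)`.

**Theorem.** There is a class `c` of degree one in `CH_0(X) ⊗ ℚ` with `∑ (P, g(Q)) = |G| c` for all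
points `P` of `C` and `Q` of `D` (`IsCentral`; it is the class of Beauville and Voisin if `X` is a K3
surface), with the following property. Let `V` and `V'` be finite-dimensional subspaces of
`Pic(C) ⊗ ℚ` and `Pic(D) ⊗ ℚ` (more generally, vector spaces of finite dimension with linear
maps `ι` and `ι'` to these). The images in `X` of the zero-cycles `a × b`, where `a` is a zero-cycle
of degree zero on `C` with class in `V` and `b` a zero-cycle of degree zero on `D` with class in
`V'`, span a subspace of `CH_0(X) ⊗ ℚ` (`spaceG`) whose dimension is finite and at most the dimension
of the space of the `G`-invariant bilinear forms on `V × V'` which vanish at `(red P, red Q)` for all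
points `(P, Q)` whose class is `c` (`FormsG`), where `red P = P - (1 / |G|) ∑ g(P)`. In
particular, if there is no such form but `0`, all points of `X` which are images of points `(P, Q)`
with `red P` in `V` and `red Q` in `V'` have the class `c`.

For instance, let the curves and the operation of `G` be defined over a number field `F`, and let
`V`, `V'` be generated by `J(C)(F)`, `J(D)(F)`. The theorem applies to all products of zero-cycles of
degree zero on `C` and `D` which are defined over `F` (sums of Galois orbits of points of any
degree). All points `(P, Q)` such that `P` or `Q` is fixed by `G` have the class `c`, and so have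
all points of the rational curves on `X` through their images; if `X` is a K3 surface, all points of
all rational curves on `X` have the class `c` by the theorem of Beauville and Voisin. If
`C = D`, `G` is cyclic of prime order `m` and has a fixed point, and the rank of `J(C)(F)` is at most
`m - 1`, so that `V` is zero or a one-dimensional space over the field `ℚ(G)` of degree `m - 1`, then
there is no such form but `0` as soon as `red P` is not zero for some `P` in `C(F)`: the graphs of the
elements of `G` give rational curves on `X`. In this case all products `a × b` are torsion
in `CH_0(X)`, and all `F`-rational points `(P, Q)` of `C × C` have the same class in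
`CH_0(X) ⊗ ℚ`.

The surface and its zero-cycles are treated by explicit definitions: `C` and `D` are given by their
function fields `K` and `L`, their points are the places of `K` and `L`, and zero-cycles rationally
equivalent to zero are spanned by the push-forwards of the divisors of functions on smooth
projective curves.
-/

set_option autoImplicit false

namespace Pool.Agent.Results.MP_32dfd1_ag.ProductQuotientSurfaces

open FF Pool.Agent.Q70.CH Pool.Agent.Q70.KM Module

/-- The images in `X = (C × D) / G` of the zero-cycles `a × b` of degree zero with the class of `a`
in `V` and that of `b` in `V'` span a space of dimension at most the dimension of the space of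
the invariant bilinear forms on `V × V'` vanishing at the points with the class `c` of Beauville and
Voisin; if there is none but `0`, all points of `X` over `V × V'` have the class `c`. -/
theorem result {k : Type} [Field k] [CharZero k] [IsAlgClosed k] {K : Type} [Field K]
    [Algebra k K] [IsFF k K] {L : Type} [Field L] [Algebra k L] [IsFF k L]
    {G : Type} [Group G] [Fintype G] {σ : G →* (K ≃ₐ[k] K)} {τ : G →* (L ≃ₐ[k] L)}
    (hσ : LineQuotient σ) (hτ : LineQuotient τ) :
    ∃ c : CHG σ τ, IsCentral σ τ c ∧
      ∀ (V : Type) [AddCommGroup V] [Module ℚ V] [FiniteDimensional ℚ V] (ι : V →ₗ[ℚ] PicQ k K)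
        (V' : Type) [AddCommGroup V'] [Module ℚ V'] [FiniteDimensional ℚ V']
        (ι' : V' →ₗ[ℚ] PicQ k L),
        FiniteDimensional ℚ (spaceG σ τ ι ι') ∧
          finrank ℚ (spaceG σ τ ι ι') ≤ finrank ℚ (FormsG σ τ c ι ι') ∧
          (FormsG σ τ c ι ι' = ⊥ → ∀ (P : Place k K) (Q : Place k L), (∃ v, ι v = red σ P) →
            (∃ w, ι' w = red τ Q) → pointG σ τ (P, Q) = c) := by
  obtain ⟨c, hc⟩ := exists_central hσ hτ
  refine ⟨c, hc, fun V _ _ _ ι V' _ _ _ ι' => ?_⟩
  obtain ⟨h1, h2⟩ := mainG hc ι ι'
  refine ⟨h1, h2, fun hF P Q hP hQ => ?_⟩
  have h3 : finrank ℚ (spaceG σ τ ι ι') = 0 := by
    have h4 : finrank ℚ (FormsG σ τ c ι ι') = 0 := by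
      rw [hF]
      exact finrank_bot ℚ _
    omega
  have h5 : spaceG σ τ ι ι' = ⊥ := Submodule.finrank_eq_zero.1 h3
  have h6 := pointG_mem hc ι ι' hP hQ
  rw [h5, Submodule.mem_bot, sub_eq_zero] at h6
  exact h6

end Pool.Agent.Results.MP_32dfd1_ag.ProductQuotientSurfaces
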